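import Pool.Agent.Lib.MP_0170ef_an_helper55.Frozen

/-!
First zeros in the sense of the problem, and the solution `V 1 a` of the library.
-/

set_option autoImplicit false

open Set Filter Topology

namespace LinNi.H20

open LinNi.H55

/-- the data of a first zero `b` of the solution which starts at `α` -/
def FZ (α b : ℝ) : Prop :=
  0 < b ∧ ∃ v : ℝ → ℝ, ContinuousOn v (Icc 0 b) ∧ v 0 = α ∧ Tendsto (deriv v) (𝓝[>] 0) (𝓝 0) ∧
    (∀ t ∈ Ico 0 b, 0 < v t) ∧ v b = 0 ∧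
    ∀ t ∈ Ioo 0 b, DifferentiableAt ℝ v t ∧ DifferentiableAt ℝ (deriv v) t ∧
      deriv (deriv v) t + 2 / t * deriv v t + (v t ^ 4 + v t ^ 7) = 0

lemma FZ.pos {a b : ℝ} (h : FZ a b) : 0 < a := by
  obtain ⟨hb, v, _, h0, _, hpos, _⟩ := h
  rw [← h0]
  exact hpos 0 ⟨le_rfl, hb⟩

lemma deriv_V (a : ℝ) : deriv (V 1 a) = V1 1 a :=
  funext fun t => (hasDerivAt_V one_mem a t).deriv

lemma deriv_V1 (a : ℝ) : deriv (V1 1 a) = V2 1 a :=
  funext fun t => (hasDerivAt_V1 one_mem a t).deriv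

/-- the equation for `V 1 a` as long as it stays in `[0, a]`, `a < 2` -/
lemma V_ode {a t : ℝ} (ht : 0 < t) (h : V 1 a t ∈ Icc (-1/2 : ℝ) 2) :
    deriv (deriv (V 1 a)) t + 2 / t * deriv (V 1 a) t + (V 1 a t ^ 4 + V 1 a t ^ 7) = 0 := by
  rw [deriv_V, deriv_V1]
  simp only [V1, V2, ht.ne', if_false]
  rw [F_of_mem h]
  unfold f
  field_simp
  ring

lemma fz_of_crosses {a : ℝ} (ha : 0 < a) (ha2 : a < 2) (h : Crosses a) : FZ a (T a) := by
  have hT := T_pos h
  refine ⟨hT, V 1 a, (V_cont one_mem a).continuousOn, V_zero one_mem a, ?_, ?_, V_T h, ?_⟩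
  · rw [deriv_V]
    have hc : ContinuousAt (V1 1 a) 0 := (hasDerivAt_V1 one_mem a 0).continuousAt
    have h0 : V1 1 a 0 = 0 := by simp [V1]
    have := hc.tendsto
    rw [h0] at this
    exact this.mono_left nhdsWithin_le_nhds
  · intro t ht
    exact V_pos_of_lt ha h ht.1 ht.2
  · intro t ht
    refine ⟨(hasDerivAt_V one_mem a t).differentiableAt, ?_,
      V_ode ht.1 (V_mem ha ha2 h ht.1.le ht.2.le)⟩
    rw [deriv_V]
    exact (hasDerivAt_V1 one_mem a t).differentiableAt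

lemma crosses_of_fz {a b : ℝ} (ha2 : a < 2) (h : FZ a b) : Crosses a ∧ b = T a := by
  have ha := h.pos
  obtain ⟨hb, v, hcont, h0, hd0, hpos, hvb, hode⟩ := h
  set m : ℝ → ℝ := fun t => t ^ 2 * deriv v t with hm
  have hmd : ∀ t ∈ Ioo 0 b, HasDerivAt m (-(t ^ 2 * (v t ^ 4 + v t ^ 7))) t := by
    intro t ht
    obtain ⟨_, h2, h3⟩ := hode t ht
    have e := (hasDerivAt_pow 2 t).fun_mul h2.hasDerivAt
    refine e.congr_deriv ?_
    have ht0 : t ≠ 0 := ht.1.ne'
    have h4 : deriv (deriv v) t = -(2 / t * deriv v t) - (v t ^ 4 + v t ^ 7) := by linarith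
    rw [h4]
    field_simp
    ring
  have hm0 : Tendsto m (𝓝[>] 0) (𝓝 0) := by
    have h1 : Tendsto (fun t : ℝ => t ^ 2) (𝓝[>] 0) (𝓝 0) := by
      have : Continuous (fun t : ℝ => t ^ 2) := by fun_prop
      have h2 := this.tendsto 0
      simp only [ne_eq, OfNat.ofNat_ne_zero, not_false_eq_true, zero_pow] at h2
      exact h2.mono_left nhdsWithin_le_nhds
    have := h1.mul hd0
    simpa using this
  have hanti : AntitoneOn m (Ioo 0 b) := by
    apply antitoneOn_of_deriv_nonpos (convex_Ioo _ _)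
    · intro t ht
      exact (hmd t ht).continuousAt.continuousWithinAt
    · intro t ht
      rw [interior_Ioo] at ht
      exact (hmd t ht).differentiableAt.differentiableWithinAt
    · intro t ht
      rw [interior_Ioo] at ht
      rw [(hmd t ht).deriv]
      have h2 := (hpos t ⟨ht.1.le, ht.2⟩).le
      have : 0 ≤ t ^ 2 * (v t ^ 4 + v t ^ 7) := by positivity
      linarith
  have hdv : ∀ t ∈ Ioo 0 b, deriv v t ≤ 0 := by
    intro t ht
    have h2 : m t ≤ 0 := by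
      refine ge_of_tendsto hm0 ?_
      filter_upwards [Ioo_mem_nhdsGT ht.1] with s hs
      exact hanti ⟨hs.1, hs.2.trans ht.2⟩ ht hs.2.le
    have h3 : 0 < t ^ 2 := pow_pos ht.1 2
    by_contra hcon
    push Not at hcon
    have := mul_pos h3 hcon
    exact absurd h2 (not_le.2 this)
  have hv_anti : AntitoneOn v (Icc 0 b) := by
    apply antitoneOn_of_deriv_nonpos (convex_Icc _ _) hcont
    · intro t ht
      rw [interior_Icc] at ht
      exact (hode t ht).1.differentiableWithinAt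
    · intro t ht
      rw [interior_Icc] at ht
      exact hdv t ht
  have hv_mem : ∀ t ∈ Ico 0 b, v t ∈ Icc (-1/2 : ℝ) 2 := by
    intro t ht
    have h2 := hv_anti (left_mem_Icc.2 hb.le) ⟨ht.1, ht.2.le⟩ ht.1
    rw [h0] at h2
    exact ⟨by linarith [hpos t ht], by linarith⟩
  have hv0 : Tendsto v (𝓝[>] 0) (𝓝 a) := by
    have h2 : Tendsto v (𝓝[Icc 0 b] 0) (𝓝 (v 0)) := hcont 0 (left_mem_Icc.2 hb.le)
    rw [h0] at h2
    exact h2.mono_left (nhdsWithin_le_of_mem (Icc_mem_nhdsGT hb))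
  have hVv : ∀ t ∈ Ioo 0 b, v t = V 1 a t := by
    intro t ht
    have hrad : RadOn 1 a t v m := by
      refine ⟨?_, hv0, hm0⟩
      intro s hs
      have hs' : s ∈ Ioo 0 b := ⟨hs.1, hs.2.trans_lt ht.2⟩
      have hs0 : s ≠ 0 := hs.1.ne'
      constructor
      · refine (hode s hs').1.hasDerivAt.congr_deriv ?_
        simp only [hm]
        field_simp
      · refine (hmd s hs').congr_deriv ?_
        rw [F_of_mem (hv_mem s ⟨hs'.1.le, hs'.2⟩)]
        unfold f
        ring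
    exact (hrad.unique one_mem ⟨ht.1, le_rfl⟩).1
  have hVb : V 1 a b = 0 := by
    have h1 : Tendsto (V 1 a) (𝓝[<] b) (𝓝 (V 1 a b)) :=
      ((V_cont one_mem a).tendsto b).mono_left nhdsWithin_le_nhds
    have h2 : Tendsto v (𝓝[<] b) (𝓝 (v b)) := by
      have h3 : Tendsto v (𝓝[Icc 0 b] b) (𝓝 (v b)) := hcont b (right_mem_Icc.2 hb.le)
      exact h3.mono_left (nhdsWithin_le_of_mem (Icc_mem_nhdsLT hb))
    have h4 : V 1 a =ᶠ[𝓝[<] b] v := by
      filter_upwards [Ioo_mem_nhdsLT hb] with t ht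
      exact (hVv t ht).symm
    have h5 : Tendsto v (𝓝[<] b) (𝓝 (V 1 a b)) := h1.congr' h4
    rw [← hvb]
    exact tendsto_nhds_unique h5 h2
  exact ⟨⟨b, hb, hVb⟩, (T_unique ha hb hVb).symm⟩

lemma fz_iff {a b : ℝ} (ha2 : a < 2) : FZ a b ↔ 0 < a ∧ Crosses a ∧ b = T a := by
  constructor
  · intro h
    exact ⟨h.pos, crosses_of_fz ha2 h⟩
  · rintro ⟨h1, h2, rfl⟩
    exact fz_of_crosses h1 ha2 h2

/-- the first zero as a function -/
noncomputable def TT (α : ℝ) : ℝ := sInf {b | FZ α b}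

lemma TT_eq {a : ℝ} (ha : 0 < a) (ha2 : a < 2) (h : Crosses a) : TT a = T a := by
  have : {b | FZ a b} = {T a} := by
    ext b
    simp only [mem_ofPred_eq, mem_singleton_iff]
    rw [fz_iff ha2]
    exact ⟨fun h => h.2.2, fun h' => ⟨ha, h, h'⟩⟩
  unfold TT
  rw [this, csInf_singleton]

/-- a solution that does not vanish stays positive -/
lemma V_pos_of_not {a : ℝ} (ha : 0 < a) (h : ¬ Crosses a) {t : ℝ} (ht : 0 ≤ t) : 0 < V 1 a t := by
  by_contra hcon
  push Not at hcon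
  have h1 : V 1 a t ≤ 0 := hcon
  have h0 : 0 < V 1 a 0 := by rw [V_zero one_mem a]; exact ha
  obtain ⟨s, hs, hs0⟩ := intermediate_value_Icc' ht (V_cont one_mem a).continuousOn ⟨h1, h0.le⟩
  rcases eq_or_lt_of_le hs.1 with h2 | h2
  · rw [← h2] at hs0
    linarith
  · exact h ⟨s, h2, hs0⟩

lemma ground {a : ℝ} (ha : 0 < a) (ha2 : a < 2) (h : ¬ Crosses a) :
    ∃ v : ℝ → ℝ, ContDiff ℝ 2 v ∧ v 0 = a ∧ deriv v 0 = 0 ∧ (∀ t, 0 ≤ t → 0 < v t) ∧
      ∀ t, 0 < t → deriv (deriv v) t + 2 / t * deriv v t + (v t ^ 4 + v t ^ 7) = 0 := by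
  refine ⟨V 1 a, contDiff_V one_mem a, V_zero one_mem a, ?_, fun t ht => V_pos_of_not ha h ht, ?_⟩
  · rw [deriv_V]
    simp [V1]
  · intro t ht
    apply V_ode ht
    have h1 := V_pos_of_not ha h ht.le
    have h2 := V_le one_mem ha ht.le
    exact ⟨by linarith, by linarith⟩

/-- `T` tends to infinity along a filter at a point where the solution does not vanish -/
lemma tendsto_T {a : ℝ} (ha : 0 < a) (h : ¬ Crosses a) {l : Filter ℝ} (hl : l ≤ 𝓝 a)
    (hc : ∀ᶠ x in l, 0 < x ∧ Crosses x) : Tendsto T l atTop := by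
  rw [tendsto_atTop]
  intro N
  have h1 : 0 < V 1 a (max N 0) := V_pos_of_not ha h (le_max_right _ _)
  have hev : ∀ᶠ b in 𝓝 a, 0 < V 1 b (max N 0) :=
    (continuous_V_param _ (le_max_right _ _)).continuousAt.eventually (lt_mem_nhds h1)
  filter_upwards [hl hev, hc] with x hx hx2
  exact (le_max_left _ _).trans ((lt_T_iff hx2.1 hx2.2 (le_max_right _ _)).2 hx).le

end LinNi.H20
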