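import Pool.Agent.Lib.MP_0170ef_an_Turn.FZ
import Pool.Agent.Lib.MP_0170ef_an.Lin

/-!
Behaviour of the first zero for small initial values, location of the turning points, components.
-/

set_option autoImplicit false

open Set Filter Topology

namespace LinNi.H20

open LinNi.H55

lemma T_sq_ge {a : ℝ} (ha : 0 < a) (ha2 : a < 2) (h : Crosses a) :
    6 ≤ T a ^ 2 * (a ^ 3 + a ^ 6) := by
  have hT := T_pos h
  set K : ℝ := a ^ 4 + a ^ 7 with hK
  have hmem : ∀ t ∈ Icc 0 (T a), 0 ≤ V 1 a t ∧ V 1 a t ≤ a := by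
    intro t ht
    refine ⟨?_, V_le one_mem ha ht.1⟩
    rcases eq_or_lt_of_le ht.2 with h1 | h1
    · rw [h1, V_T h]
    · exact (V_pos_of_lt ha h ht.1 h1).le
  have hF : ∀ t ∈ Icc 0 (T a), F 1 (V 1 a t) ≤ K := by
    intro t ht
    obtain ⟨h1, h2⟩ := hmem t ht
    rw [F_of_mem ⟨by linarith, by linarith⟩]
    unfold f
    rw [hK]
    have e1 : V 1 a t ^ 4 ≤ a ^ 4 := pow_le_pow_left₀ h1 h2 4
    have e2 : V 1 a t ^ 7 ≤ a ^ 7 := pow_le_pow_left₀ h1 h2 7
    linarith
  -- the flux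
  have hM : ∀ t ∈ Icc 0 (T a), -(t ^ 3 * K / 3) ≤ M 1 a t := by
    have hder : ∀ t : ℝ, HasDerivAt (fun t => M 1 a t + t ^ 3 * K / 3)
        (-(t ^ 2 * F 1 (V 1 a t)) + 3 * t ^ 2 * K / 3) t := by
      intro t
      have e1 := (hasDerivAt_pow 3 t).mul_const K |>.div_const 3
      have e2 := (hasDerivAt_M one_mem a t).add e1
      refine e2.congr_deriv ?_
      norm_num
    have hmono : MonotoneOn (fun t => M 1 a t + t ^ 3 * K / 3) (Icc 0 (T a)) := by
      apply monotoneOn_of_deriv_nonneg (convex_Icc _ _)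
      · intro t _
        exact (hder t).continuousAt.continuousWithinAt
      · intro t _
        exact (hder t).differentiableAt.differentiableWithinAt
      · intro t ht
        rw [interior_Icc] at ht
        rw [(hder t).deriv]
        have h1 := hF t ⟨ht.1.le, ht.2.le⟩
        have h2 : 0 ≤ t ^ 2 := sq_nonneg t
        nlinarith
    intro t ht
    have h1 := hmono (left_mem_Icc.2 hT.le) ht ht.1
    simp only [M_zero one_mem a] at h1
    norm_num at h1
    linarith
  -- the solution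
  have hder2 : ∀ t : ℝ, HasDerivAt (fun t => V 1 a t + t ^ 2 * K / 6)
      (V1 1 a t + 2 * t * K / 6) t := by
    intro t
    have e1 := (hasDerivAt_pow 2 t).mul_const K |>.div_const 6
    have e2 := (hasDerivAt_V one_mem a t).add e1
    refine e2.congr_deriv ?_
    norm_num
  have hmono2 : MonotoneOn (fun t => V 1 a t + t ^ 2 * K / 6) (Icc 0 (T a)) := by
    apply monotoneOn_of_deriv_nonneg (convex_Icc _ _)
    · intro t _
      exact (hder2 t).continuousAt.continuousWithinAt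
    · intro t _
      exact (hder2 t).differentiableAt.differentiableWithinAt
    · intro t ht
      rw [interior_Icc] at ht
      rw [(hder2 t).deriv]
      have h1 := hM t ⟨ht.1.le, ht.2.le⟩
      have ht0 : 0 < t ^ 2 := pow_pos ht.1 2
      have h2 : -(t * K / 3) ≤ V1 1 a t := by
        unfold V1
        rw [le_div_iff₀ ht0]
        calc -(t * K / 3) * t ^ 2 = -(t ^ 3 * K / 3) := by ring
          _ ≤ M 1 a t := h1
      linarith
  have h1 := hmono2 (left_mem_Icc.2 hT.le) (right_mem_Icc.2 hT.le) hT.le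
  simp only [V_zero one_mem a, V_T h] at h1
  have h2 : 6 * a ≤ T a ^ 2 * K := by
    norm_num at h1
    linarith
  have h3 : T a ^ 2 * K = (T a ^ 2 * (a ^ 3 + a ^ 6)) * a := by rw [hK]; ring
  rw [h3] at h2
  exact le_of_mul_le_mul_right h2 ha

lemma tendsto_Lam_zero {p : ℝ} (hp : 0 < p) (hc : ∀ a ∈ Ioo 0 p, Crosses a) :
    Tendsto (fun a => T a ^ 2) (𝓝[>] 0) atTop := by
  have h1 : Tendsto (fun a : ℝ => 3 * a⁻¹) (𝓝[>] 0) atTop :=
    tendsto_inv_nhdsGT_zero.const_mul_atTop (by norm_num)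
  refine tendsto_atTop_mono' _ ?_ h1
  filter_upwards [Ioo_mem_nhdsGT (lt_min hp one_pos)] with a ha
  have ha0 : 0 < a := ha.1
  have ha1 : a < 1 := ha.2.trans_le (min_le_right _ _)
  have h2 := T_sq_ge ha0 (by linarith) (hc a ⟨ha0, ha.2.trans_le (min_le_left _ _)⟩)
  have h3 : a ^ 3 + a ^ 6 ≤ 2 * a := by
    have e1 : a ^ 3 ≤ a := by
      calc a ^ 3 ≤ a ^ 1 := pow_le_pow_of_le_one ha0.le ha1.le (by norm_num)
        _ = a := pow_one a
    have e2 : a ^ 6 ≤ a := by
      calc a ^ 6 ≤ a ^ 1 := pow_le_pow_of_le_one ha0.le ha1.le (by norm_num)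
        _ = a := pow_one a
    linarith
  have h4 : 6 ≤ T a ^ 2 * (2 * a) := h2.trans (mul_le_mul_of_nonneg_left h3 (sq_nonneg _))
  rw [← div_eq_mul_inv, div_le_iff₀ ha0]
  linarith

/-- the turning point with its location -/
theorem turn {p q a b : ℝ} (hp : 0 ≤ p) (hcq : ∀ x ∈ Ioo p q, Crosses x ∧ LocQ x)
    (ha : LocL a) (hb : LocR b) (hpa : p < a) (hab : a < b) (hbq : b < q) :
    ∃ t, a ≤ t ∧ t ≤ b ∧ StrictAntiOn (fun x => T x ^ 2) (Ioc p t) ∧
      StrictMonoOn (fun x => T x ^ 2) (Ico t q) := by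
  have hcont : ContinuousOn T (Ioo p q) :=
    continuousOn_T isOpen_Ioo fun a ha => ⟨hp.trans_lt ha.1, (hcq a ha).1⟩
  obtain ⟨t, ht, h1, h2⟩ := one_turn hcont (fun a ha => (hcq a ha).2) (vee_of ha hb hpa hab hbq)
  refine ⟨t, ?_, ?_, ?_, ?_⟩
  · by_contra hcon
    push Not at hcon
    obtain ⟨-, δ, hδ, h3⟩ := ha
    obtain ⟨x, hx1, hx2⟩ := exists_between (max_lt (by linarith : a - δ < a) hcon)
    have e1 := h3 x ⟨(le_max_left _ _).trans_lt hx1, hx2⟩
    have e2 := h2 x ⟨ht.1.trans ((le_max_right _ _).trans_lt hx1), hx2.trans (hab.trans hbq)⟩ a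
      ⟨hpa, hab.trans hbq⟩ hx2 ((le_max_right _ _).trans hx1.le)
    linarith
  · by_contra hcon
    push Not at hcon
    obtain ⟨-, δ, hδ, h3⟩ := hb
    obtain ⟨x, hx1, hx2⟩ := exists_between (lt_min (by linarith : b < b + δ) hcon)
    have e1 := h3 x ⟨hx1, hx2.trans_le (min_le_left _ _)⟩
    have e2 := h1 b ⟨hpa.trans hab, hbq⟩ x
      ⟨(hpa.trans hab).trans hx1, hx2.trans_le (min_le_right _ _) |>.trans ht.2⟩ hx1
      (hx2.trans_le (min_le_right _ _)).le
    linarith
  · intro y hy z hz hyz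
    have hy' : y ∈ Ioo p q := ⟨hy.1, hy.2.trans_lt ht.2⟩
    have hz' : z ∈ Ioo p q := ⟨hz.1, hz.2.trans_lt ht.2⟩
    exact pow_lt_pow_left₀ (h1 y hy' z hz' hyz hz.2) (T_pos (hcq z hz').1).le (by norm_num)
  · intro y hy z hz hyz
    have hy' : y ∈ Ioo p q := ⟨ht.1.trans_le hy.1, hy.2⟩
    have hz' : z ∈ Ioo p q := ⟨ht.1.trans_le hz.1, hz.2⟩
    exact pow_lt_pow_left₀ (h2 y hy' z hz' hyz hy.1) (T_pos (hcq y hy').1).le (by norm_num)

/-- components -/
lemma comp_eq {A : Set ℝ} {p q x : ℝ} (hsub : Ioo p q ⊆ A) (hp : p ∉ A) (hq : q ∉ A)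
    (hx : x ∈ Ioo p q) : connectedComponentIn A x = Ioo p q := by
  apply Subset.antisymm
  · intro y hy
    have hord : (connectedComponentIn A x).OrdConnected :=
      isPreconnected_connectedComponentIn.ordConnected
    have hxA : x ∈ connectedComponentIn A x := mem_connectedComponentIn (hsub hx)
    have hsubA := connectedComponentIn_subset A x
    constructor
    · by_contra hcon
      push Not at hcon
      exact hp (hsubA (hord.out hy hxA ⟨hcon, hx.1.le⟩))
    · by_contra hcon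
      push Not at hcon
      exact hq (hsubA (hord.out hxA hy ⟨hx.2.le, hcon⟩))
  · exact isPreconnected_Ioo.subset_connectedComponentIn hx hsub

end LinNi.H20
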