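import Pool.Agent.Lib.MP_0170ef_an.Asm
import Pool.Agent.Lib.MP_0170ef_an_Turn.Lim

/-!
The two lowest curves with numerical enclosures.
-/

set_option autoImplicit false

open Set Filter Topology

namespace LinNi.H20

open LinNi.H55 H93

/-- the analytic main statement with the location of all windows -/
theorem mainFact2 : ∃ α₁ α₂ : ℝ, 15262 / 10 ^ 4 < α₁ ∧ α₁ < 15395 / 10 ^ 4 ∧
    18309 / 10 ^ 4 < α₂ ∧ α₂ < 18571 / 10 ^ 4 ∧ ¬ Crosses α₁ ∧ ¬ Crosses α₂ ∧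
    (∀ a, 0 < a → a < α₂ → a ≠ α₁ → Crosses a ∧ LocQ a) := by
  have hL := (dL_h0.valid dL_F).main
  have hHE : HE (lastB dL_0 dL_l0) tau := hL.2
  have hlast : 1000 ≤ lastB dD1_0 dD1_l0 := by
    have h1 : lastP dD1_0 dD1_l0 = dD1_48 := rfl
    rw [lastB_eq, h1]
    have h2 : 1000 * dD1_48.D ≤ dD1_48.A + dD1_48.H := by decide +kernel
    have h3 : 0 < dD1_48.D := by decide +kernel
    have h2' : ((1000 * dD1_48.D : ℕ) : ℝ) ≤ ((dD1_48.A + dD1_48.H : ℕ) : ℝ) := by exact_mod_cast h2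
    have h3' : (0:ℝ) < dD1_48.D := by exact_mod_cast h3
    push_cast at h2'
    unfold Patch.b
    rw [le_div_iff₀ h3']
    exact h2'
  obtain ⟨α₁, h1, h1c, h1R, h1L⟩ := corrL dD1_F dD1_h0 dD1_C (by decide +kernel) hlast hL.1
    tau_pos hHE
  obtain ⟨α₂, h2, h2c, h2R⟩ := corrR dH1_F dH1_h0 dH1_C (by decide +kernel)
  have d1 := wl_le dD1_C
  have d2 := le_wr dD1_C
  have d3 := wl_le dH1_C
  have d5 : (15262:ℕ) / (10:ℝ) ^ 4 ≤ dD1F.wl := le_wl dD1_C (by decide +kernel)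
  have d6 : dD1F.wr ≤ (15395:ℕ) / (10:ℝ) ^ 4 := wr_le (by decide +kernel)
  have d7 : (18309:ℕ) / (10:ℝ) ^ 4 ≤ dH1F.wl := le_wl dH1_C (by decide +kernel)
  have d8 : dH1F.wr ≤ (18571:ℕ) / (10:ℝ) ^ 4 := wr_le (by decide +kernel)
  norm_num at d1 d2 d3 d5 d6 d7 d8
  refine ⟨α₁, α₂, by norm_num; linarith [h1.1], by norm_num; linarith [h1.2],
    by norm_num; linarith [h2.1], by norm_num; linarith [h2.2], h1c, h2c, ?_⟩
  intro a ha0 ha2 hne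
  rcases lt_or_ge a dD1F.wl with c1 | c1
  · exact wABC ha0 (by norm_num; linarith)
  rcases lt_or_gt_of_ne hne with c2 | c2
  · exact (h1R a ⟨c1, c2⟩).locQ
  rcases le_or_gt a dD1F.wr with c3 | c3
  · exact (h1L a ⟨c2, c3⟩).locQ
  rcases lt_or_ge a dH1F.wl with c4 | c4
  · exact wEFG (by norm_num; linarith) (by norm_num; linarith)
  · exact (h2R a ⟨c4, ha2⟩).locQ

theorem full : ∃ t₁ α₁ t₂ α₂ : ℝ,
    (0.79 ≤ t₁ ∧ t₁ ≤ 1.05 ∧ 1.5262 < α₁ ∧ α₁ < 1.5395 ∧ 1.6524 ≤ t₂ ∧ t₂ ≤ 1.705 ∧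
      1.8309 < α₂ ∧ α₂ < 1.8571) ∧
    ({α | 0 < α ∧ ∃ b, FZ α b} ∩ Iic α₂ = Ioo 0 α₁ ∪ Ioo α₁ α₂) ∧
    (∀ x ∈ Ioo 0 α₁, connectedComponentIn {α | 0 < α ∧ ∃ b, FZ α b} x = Ioo 0 α₁) ∧
    (∀ x ∈ Ioo α₁ α₂, connectedComponentIn {α | 0 < α ∧ ∃ b, FZ α b} x = Ioo α₁ α₂) ∧
    (∀ α ∈ Ioo 0 α₁ ∪ Ioo α₁ α₂, ∀ b, FZ α b ↔ b = TT α) ∧
    StrictAntiOn (fun α => TT α ^ 2) (Ioc 0 t₁) ∧ StrictMonoOn (fun α => TT α ^ 2) (Ico t₁ α₁) ∧
    StrictAntiOn (fun α => TT α ^ 2) (Ioc α₁ t₂) ∧ StrictMonoOn (fun α => TT α ^ 2) (Ico t₂ α₂) ∧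
    Tendsto (fun α => TT α ^ 2) (𝓝[>] 0) atTop ∧ Tendsto (fun α => TT α ^ 2) (𝓝[<] α₁) atTop ∧
    Tendsto (fun α => TT α ^ 2) (𝓝[>] α₁) atTop ∧ Tendsto (fun α => TT α ^ 2) (𝓝[<] α₂) atTop ∧
    (∀ α ∈ ({α₁, α₂} : Set ℝ), ∃ v : ℝ → ℝ, ContDiff ℝ 2 v ∧ v 0 = α ∧ deriv v 0 = 0 ∧
      (∀ t, 0 ≤ t → 0 < v t) ∧
      ∀ t, 0 < t → deriv (deriv v) t + 2 / t * deriv v t + (v t ^ 4 + v t ^ 7) = 0) ∧
    (∀ l a : ℝ, a ≤ α₂ → (Sol l a ↔ (0 < a ∧ ∃ b, FZ a b) ∧ l = TT a ^ 2)) := by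
  obtain ⟨α₁, α₂, e1, e2, e3, e4, n1, n2, hall⟩ := mainFact2
  norm_num at e1 e2 e3 e4
  have h1 : 0 < α₁ := by linarith
  have h12 : α₁ < α₂ := by linarith
  have h22 : α₂ < 2 := by linarith
  have h2 : 0 < α₂ := h1.trans h12
  have hcq1 : ∀ a ∈ Ioo 0 α₁, Crosses a ∧ LocQ a := fun a ha =>
    hall a ha.1 (ha.2.trans h12) ha.2.ne
  have hcq2 : ∀ a ∈ Ioo α₁ α₂, Crosses a ∧ LocQ a := fun a ha =>
    hall a (h1.trans ha.1) ha.2 ha.1.ne'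
  obtain ⟨t₁, a1, a2, a3, a4⟩ := turn (a := 79 / 100) (b := 105 / 100) le_rfl hcq1
    (wA (by norm_num) (by norm_num)) (wC (by norm_num) (by norm_num)) (by norm_num) (by norm_num)
    (by norm_num; linarith)
  obtain ⟨t₂, b1, b2, b3, b4⟩ := turn (a := 16524 / 10 ^ 4) (b := 17050 / 10 ^ 4) h1.le hcq2
    (wE (by norm_num) (by norm_num)) (wG (by norm_num) (by norm_num)) (by norm_num; linarith)
    (by norm_num) (by norm_num; linarith)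
  have ht₁0 : 0 < t₁ := lt_of_lt_of_le (by norm_num) a1
  have ht₁1 : t₁ < α₁ := by norm_num at a2; linarith
  have ht₂0 : α₁ < t₂ := by norm_num at b1; linarith
  have ht₂1 : t₂ < α₂ := by norm_num at b2; linarith
  have hT1 : ∀ a ∈ Ioo 0 α₁, TT a = T a := fun a ha =>
    TT_eq ha.1 (ha.2.trans (h12.trans h22)) (hcq1 a ha).1
  have hT2 : ∀ a ∈ Ioo α₁ α₂, TT a = T a := fun a ha =>
    TT_eq (h1.trans ha.1) (ha.2.trans h22) (hcq2 a ha).1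
  have hA1 : ∀ a ∈ Ioo 0 α₁, a ∈ {α | 0 < α ∧ ∃ b, FZ α b} := fun a ha =>
    ⟨ha.1, T a, fz_of_crosses ha.1 (ha.2.trans (h12.trans h22)) (hcq1 a ha).1⟩
  have hA2 : ∀ a ∈ Ioo α₁ α₂, a ∈ {α | 0 < α ∧ ∃ b, FZ α b} := fun a ha =>
    ⟨h1.trans ha.1, T a, fz_of_crosses (h1.trans ha.1) (ha.2.trans h22) (hcq2 a ha).1⟩
  have hN0 : (0:ℝ) ∉ {α | 0 < α ∧ ∃ b, FZ α b} := fun h => lt_irrefl _ h.1
  have hN1 : α₁ ∉ {α | 0 < α ∧ ∃ b, FZ α b} := by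
    rintro ⟨-, b, hb⟩
    exact n1 (crosses_of_fz (h12.trans h22) hb).1
  have hN2 : α₂ ∉ {α | 0 < α ∧ ∃ b, FZ α b} := by
    rintro ⟨-, b, hb⟩
    exact n2 (crosses_of_fz h22 hb).1
  have hsq : Tendsto (fun x : ℝ => x ^ 2) atTop atTop := tendsto_pow_atTop (by norm_num)
  refine ⟨t₁, α₁, t₂, α₂, ⟨?_, ?_, ?_, ?_, ?_, ?_, ?_, ?_⟩, ?_, ?_, ?_, ?_, ?_, ?_, ?_, ?_, ?_, ?_,
    ?_, ?_, ?_, ?_⟩
  · norm_num at a1 ⊢; linarith
  · norm_num at a2 ⊢; linarith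
  · norm_num; linarith
  · norm_num; linarith
  · norm_num at b1 ⊢; linarith
  · norm_num at b2 ⊢; linarith
  · norm_num; linarith
  · norm_num; linarith
  · ext a
    constructor
    · rintro ⟨ha, ha2⟩
      have ha2' : a ≤ α₂ := ha2
      have c1 : a ≠ α₁ := fun h => hN1 (h ▸ ha)
      have c2 : a ≠ α₂ := fun h => hN2 (h ▸ ha)
      rcases lt_or_gt_of_ne c1 with h3 | h3
      · exact Or.inl ⟨ha.1, h3⟩
      · exact Or.inr ⟨h3, lt_of_le_of_ne ha2' c2⟩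
    · rintro (ha | ha)
      · exact ⟨hA1 a ha, (ha.2.trans h12).le⟩
      · exact ⟨hA2 a ha, ha.2.le⟩
  · exact fun x hx => comp_eq hA1 hN0 hN1 hx
  · exact fun x hx => comp_eq hA2 hN1 hN2 hx
  · rintro a (ha | ha) b
    · rw [fz_iff (ha.2.trans (h12.trans h22)), hT1 a ha]
      exact ⟨fun h => h.2.2, fun h => ⟨ha.1, (hcq1 a ha).1, h⟩⟩
    · rw [fz_iff (ha.2.trans h22), hT2 a ha]
      exact ⟨fun h => h.2.2, fun h => ⟨h1.trans ha.1, (hcq2 a ha).1, h⟩⟩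
  · refine a3.congr fun x hx => ?_
    simp only
    rw [hT1 x ⟨hx.1, hx.2.trans_lt ht₁1⟩]
  · refine a4.congr fun x hx => ?_
    simp only
    rw [hT1 x ⟨ht₁0.trans_le hx.1, hx.2⟩]
  · refine b3.congr fun x hx => ?_
    simp only
    rw [hT2 x ⟨hx.1, hx.2.trans_lt ht₂1⟩]
  · refine b4.congr fun x hx => ?_
    simp only
    rw [hT2 x ⟨ht₂0.trans_le hx.1, hx.2⟩]
  · refine (tendsto_Lam_zero h1 fun a ha => (hcq1 a ha).1).congr' ?_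
    filter_upwards [Ioo_mem_nhdsGT h1] with a ha
    rw [hT1 a ha]
  · refine (hsq.comp (tendsto_T h1 n1 nhdsWithin_le_nhds ?_)).congr' ?_
    · filter_upwards [Ioo_mem_nhdsLT h1] with a ha
      exact ⟨ha.1, (hcq1 a ha).1⟩
    · filter_upwards [Ioo_mem_nhdsLT h1] with a ha
      simp only [Function.comp_apply]
      rw [hT1 a ha]
  · refine (hsq.comp (tendsto_T h1 n1 nhdsWithin_le_nhds ?_)).congr' ?_
    · filter_upwards [Ioo_mem_nhdsGT h12] with a ha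
      exact ⟨h1.trans ha.1, (hcq2 a ha).1⟩
    · filter_upwards [Ioo_mem_nhdsGT h12] with a ha
      simp only [Function.comp_apply]
      rw [hT2 a ha]
  · refine (hsq.comp (tendsto_T h2 n2 nhdsWithin_le_nhds ?_)).congr' ?_
    · filter_upwards [Ioo_mem_nhdsLT h12] with a ha
      exact ⟨h1.trans ha.1, (hcq2 a ha).1⟩
    · filter_upwards [Ioo_mem_nhdsLT h12] with a ha
      simp only [Function.comp_apply]
      rw [hT2 a ha]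
  · intro a ha
    rcases ha with rfl | ha
    · exact ground h1 (h12.trans h22) n1
    · rw [mem_singleton_iff] at ha
      subst ha
      exact ground h2 h22 n2
  · intro l a ha
    constructor
    · intro h
      have h3 := crosses_of_sol (ha.trans_lt h22) h
      have h4 := h.pos
      refine ⟨⟨h4, T a, fz_of_crosses h4 (ha.trans_lt h22) h3.1⟩, ?_⟩
      rw [TT_eq h4 (ha.trans_lt h22) h3.1]
      exact h3.2
    · rintro ⟨⟨h3, b, h4⟩, rfl⟩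
      have h5 := (crosses_of_fz (ha.trans_lt h22) h4).1
      rw [TT_eq h3 (ha.trans_lt h22) h5]
      exact sol_of_crosses h3 (ha.trans_lt h22) h5

end LinNi.H20
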